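import Pool.Agent.Y478.TG.Stm

/-!
# The Kuenneth formula for finite complexes over a field
-/

set_option linter.unusedSectionVars false
set_option linter.unusedVariables false

noncomputable section

namespace Pool.Agent.Y655.KUN

open Pool.Agent.Y478.TG

open Matrix Kronecker

section one
variable {F I : Type} [Field F] [Fintype I] [DecidableEq I]

theorem mem_chains {deg : I → ℕ} {n : ℕ} {v : I → F} :
    v ∈ chains F deg n ↔ ∀ i, deg i ≠ n → v i = 0 := Iff.rfl

/-- multiplication by a matrix which changes the degree in a controlled way -/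
theorem vecMul_chains {J : Type} {deg : I → ℕ} {dJ : J → ℕ} {M : Matrix I J F} {n m : ℕ}
    (h : ∀ a b, M a b ≠ 0 → deg a = n → dJ b = m) {v : I → F} (hv : v ∈ chains F deg n) :
    v ᵥ* M ∈ chains F dJ m := by
  intro j hj
  show ∑ i, v i * M i j = 0
  refine Finset.sum_eq_zero fun i _ => ?_
  by_cases h1 : deg i = n
  · by_cases h2 : M i j = 0
    · rw [h2, mul_zero]
    · exact absurd (h i j h2 h1) hj
  · rw [hv i h1, zero_mul]

/-- the fixed vectors of `e` of degree `n` -/
def Ex (deg : I → ℕ) (e : Matrix I I F) (n : ℕ) : Submodule F (I → F) :=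
  chains F deg n ⊓ LinearMap.ker (Matrix.vecMulLinear e - LinearMap.id)

theorem mem_Ex {deg : I → ℕ} {e : Matrix I I F} {n : ℕ} {v : I → F} :
    v ∈ Ex deg e n ↔ v ∈ chains F deg n ∧ v ᵥ* e = v := by
  unfold Ex
  rw [Submodule.mem_inf, LinearMap.mem_ker, LinearMap.sub_apply, LinearMap.id_apply, sub_eq_zero]
  rfl

/-- a projection onto the homology -/
structure Hty (deg : I → ℕ) (A e K : Matrix I I F) : Prop where
  eA : e * A = 0
  Ae : A * e = 0
  ee : e * e = e
  hom : A * K + K * A = 1 - e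
  dK : ∀ a b, K a b ≠ 0 → deg b = deg a + 1
  de : ∀ a b, e a b ≠ 0 → deg a = deg b

theorem betti_eq {deg : I → ℕ} {A e K : Matrix I I F} (hA : IsCx deg A) (h : Hty deg A e K)
    (n : ℕ) : betti deg A n = Module.finrank F (Ex deg e n) := by
  unfold betti
  -- the projection
  let φ : cycles deg A n →ₗ[F] Ex deg e n :=
    (((Matrix.vecMulLinear e).comp (cycles deg A n).subtype)).codRestrict (Ex deg e n) (by
      rintro ⟨v, hv⟩
      show v ᵥ* e ∈ Ex deg e n
      rw [mem_Ex]
      refine ⟨vecMul_chains (fun a b hab ha => by rw [← h.de a b hab, ha]) hv.1, ?_⟩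
      rw [Matrix.vecMul_vecMul, h.ee])
  have hφ : ∀ v : cycles deg A n, ((φ v : Ex deg e n) : I → F) = (v : I → F) ᵥ* e := fun _ => rfl
  have hsurj : Function.Surjective φ := by
    rintro ⟨v, hv⟩
    rw [mem_Ex] at hv
    refine ⟨⟨v, hv.1, ?_⟩, Subtype.ext hv.2⟩
    show v ᵥ* A = 0
    rw [← hv.2, Matrix.vecMul_vecMul, h.eA, Matrix.vecMul_zero]
  have hker : LinearMap.ker φ = (boundaries deg A n).submoduleOf (cycles deg A n) := by
    ext ⟨v, hv⟩
    rw [LinearMap.mem_ker]
    show φ ⟨v, hv⟩ = 0 ↔ v ∈ boundaries deg A n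
    constructor
    · intro h1
      have h2 : v ᵥ* e = 0 := congrArg Subtype.val h1
      refine ⟨v ᵥ* K, vecMul_chains (fun a b hab ha => by rw [h.dK a b hab, ha]) hv.1, ?_⟩
      show (v ᵥ* K) ᵥ* A = v
      have h3 : v ᵥ* A = 0 := hv.2
      have h4 : v ᵥ* (A * K + K * A) = v ᵥ* (1 - e) := by rw [h.hom]
      rw [Matrix.vecMul_add, Matrix.vecMul_sub, Matrix.vecMul_one, h2, ← Matrix.vecMul_vecMul, h3,
        Matrix.zero_vecMul, zero_add, sub_zero] at h4
      rw [Matrix.vecMul_vecMul]
      exact h4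
    · rintro ⟨w, -, hw⟩
      have h1 : w ᵥ* A = v := hw
      apply Subtype.ext
      show v ᵥ* e = 0
      rw [← h1, Matrix.vecMul_vecMul, h.Ae, Matrix.vecMul_zero]
  rw [← hker]
  exact (LinearMap.quotKerEquivOfSurjective φ hsurj).finrank_eq

/-- generalised inverse -/
theorem exists_geninv (A : Matrix I I F) : ∃ K : Matrix I I F, A * K * A = A := by
  obtain ⟨h, hh⟩ := LinearMap.exists_rightInverse_of_surjective
    (Matrix.vecMulLinear A).rangeRestrict (LinearMap.range_rangeRestrict _)
  obtain ⟨g, hg⟩ := LinearMap.exists_extend h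
  refine ⟨LinearMap.toMatrixRight' g, ?_⟩
  have hg' : ∀ v : I → F, v ᵥ* (LinearMap.toMatrixRight' g) = g v := by
    intro v
    exact LinearMap.congr_fun ((LinearMap.toMatrixRight' (R := F) (m := I) (n := I)).symm_apply_apply g) v
  have key : ∀ v : I → F, v ᵥ* (A * LinearMap.toMatrixRight' g * A) = v ᵥ* A := by
    intro v
    rw [← Matrix.vecMul_vecMul, ← Matrix.vecMul_vecMul, hg']
    have h1 : g (v ᵥ* A) = h ((Matrix.vecMulLinear A).rangeRestrict v) := by
      rw [← hg]
      rfl
    rw [h1]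
    have h2 := LinearMap.congr_fun hh ((Matrix.vecMulLinear A).rangeRestrict v)
    exact congrArg Subtype.val h2
  ext a b
  have h3 := congrFun (key (Pi.single a 1)) b
  rw [Matrix.single_one_vecMul, Matrix.single_one_vecMul] at h3
  exact h3

theorem exists_graded {deg : I → ℕ} {A : Matrix I I F} (hA : IsCx deg A) :
    ∃ K : Matrix I I F, A * K * A = A ∧ ∀ a b, K a b ≠ 0 → deg b = deg a + 1 := by
  obtain ⟨K, hK⟩ := exists_geninv A
  refine ⟨Matrix.of fun a b => if deg b = deg a + 1 then K a b else 0, ?_, ?_⟩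
  · ext a b
    have h1 : A a b = ∑ d, (∑ c, A a c * K c d) * A d b := by
      conv_lhs => rw [← hK]
      rw [Matrix.mul_apply]
      simp only [Matrix.mul_apply]
    rw [Matrix.mul_apply]
    simp only [Matrix.mul_apply, Matrix.of_apply]
    by_cases hab : deg a = deg b + 1
    · rw [h1]
      refine Finset.sum_congr rfl fun d _ => ?_
      by_cases hd : A d b = 0
      · rw [hd, mul_zero, mul_zero]
      · congr 1
        refine Finset.sum_congr rfl fun c _ => ?_
        by_cases hc : A a c = 0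
        · rw [hc, zero_mul, zero_mul]
        · have e1 := hA.1 _ _ hd
          have e2 := hA.1 _ _ hc
          rw [if_pos (by omega)]
    · have h2 : A a b = 0 := by
        by_contra h3
        exact hab (hA.1 _ _ h3)
      rw [h2]
      refine Finset.sum_eq_zero fun d _ => ?_
      by_cases hd : A d b = 0
      · rw [hd, mul_zero]
      · rw [Finset.sum_eq_zero, zero_mul]
        intro c _
        by_cases hc : A a c = 0
        · rw [hc, zero_mul]
        · have e1 := hA.1 _ _ hd
          have e2 := hA.1 _ _ hc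
          rw [if_neg (by omega), mul_zero]
  · intro a b h
    rw [Matrix.of_apply] at h
    by_contra h1
    rw [if_neg h1] at h
    exact h rfl

theorem mul_deg {J L : Type} [Fintype J] {M : Matrix I J F} {N : Matrix J L F} {a : I} {b : L}
    (h : (M * N) a b ≠ 0) : ∃ c, M a c ≠ 0 ∧ N c b ≠ 0 := by
  by_contra hcon
  push Not at hcon
  apply h
  rw [Matrix.mul_apply]
  refine Finset.sum_eq_zero fun c _ => ?_
  by_cases h1 : M a c = 0
  · rw [h1, zero_mul]
  · rw [hcon c h1, mul_zero]

theorem one_deg {a b : I} (h : (1 : Matrix I I F) a b ≠ 0) : a = b := by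
  by_contra h1
  exact h (Matrix.one_apply_ne h1)

theorem exists_hty {deg : I → ℕ} {A : Matrix I I F} (hA : IsCx deg A) :
    ∃ e K : Matrix I I F, Hty deg A e K := by
  obtain ⟨K, hK, hd⟩ := exists_graded hA
  have hA2 := hA.2
  have hAK : A * K * (A * K) = A * K := by rw [← Matrix.mul_assoc, hK]
  obtain ⟨L, hL⟩ : ∃ L, L = (1 - A * K) * (K * A * K) := ⟨_, rfl⟩
  have hALA : A * L * A = A := by
    have h1 : A * L = A * (K * A * K) := by
      rw [hL, ← Matrix.mul_assoc, Matrix.mul_sub, Matrix.mul_one, ← Matrix.mul_assoc A A K, hA2,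
        Matrix.zero_mul, sub_zero]
    rw [h1, ← Matrix.mul_assoc, ← Matrix.mul_assoc, hK, hK]
  have hLL : L * L = 0 := by
    have h1 : K * A * K * (1 - A * K) = 0 := by
      rw [Matrix.mul_sub, Matrix.mul_one, Matrix.mul_assoc K A K, Matrix.mul_assoc K (A * K) (A * K),
        hAK, sub_self]
    rw [hL]
    calc (1 - A * K) * (K * A * K) * ((1 - A * K) * (K * A * K))
        = (1 - A * K) * (K * A * K * (1 - A * K)) * (K * A * K) := by
          simp only [Matrix.mul_assoc]
      _ = 0 := by rw [h1, Matrix.mul_zero, Matrix.zero_mul]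
  have hdL : ∀ a b, L a b ≠ 0 → deg b = deg a + 1 := by
    intro a b h
    rw [hL] at h
    obtain ⟨c, h1, h2⟩ := mul_deg h
    have h3 : deg c = deg a := by
      rw [Matrix.sub_apply] at h1
      by_cases h4 : (1 : Matrix I I F) a c = 0
      · rw [h4, zero_sub, neg_ne_zero] at h1
        obtain ⟨x, h5, h6⟩ := mul_deg h1
        have e1 := hA.1 _ _ h5
        have e2 := hd _ _ h6
        omega
      · rw [one_deg h4]
    obtain ⟨x, h5, h6⟩ := mul_deg h2
    obtain ⟨y, h7, h8⟩ := mul_deg h5
    have e1 := hd _ _ h7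
    have e2 := hA.1 _ _ h8
    have e3 := hd _ _ h6
    omega
  refine ⟨1 - (A * L + L * A), L, ?_, ?_, ?_, by abel, hdL, ?_⟩
  · rw [Matrix.sub_mul, Matrix.one_mul, Matrix.add_mul, hALA, Matrix.mul_assoc L A A, hA2,
      Matrix.mul_zero, add_zero, sub_self]
  · rw [Matrix.mul_sub, Matrix.mul_one, Matrix.mul_add, ← Matrix.mul_assoc, hA2, Matrix.zero_mul,
      zero_add, ← Matrix.mul_assoc, hALA, sub_self]
  · have h1 : (A * L + L * A) * (A * L + L * A) = A * L + L * A := by
      have e1 : A * L * (A * L) = A * L := by rw [← Matrix.mul_assoc, hALA]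
      have e2 : A * L * (L * A) = 0 := by
        rw [Matrix.mul_assoc, ← Matrix.mul_assoc L L A, hLL, Matrix.zero_mul, Matrix.mul_zero]
      have e3 : L * A * (A * L) = 0 := by
        rw [Matrix.mul_assoc, ← Matrix.mul_assoc A A L, hA2, Matrix.zero_mul, Matrix.mul_zero]
      have e4 : L * A * (L * A) = L * A := by
        rw [Matrix.mul_assoc, ← Matrix.mul_assoc A L A, hALA]
      rw [Matrix.add_mul, Matrix.mul_add, Matrix.mul_add, e1, e2, e3, e4, add_zero, zero_add]
    rw [Matrix.sub_mul, Matrix.one_mul, Matrix.mul_sub, Matrix.mul_one, h1, sub_self, sub_zero]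
  · intro a b h
    rw [Matrix.sub_apply] at h
    by_cases h4 : (1 : Matrix I I F) a b = 0
    · rw [h4, zero_sub, neg_ne_zero, Matrix.add_apply] at h
      by_cases h5 : (A * L) a b = 0
      · rw [h5, zero_add] at h
        obtain ⟨x, h6, h7⟩ := mul_deg h
        have e1 := hA.1 _ _ h7
        have e2 := hdL _ _ h6
        omega
      · obtain ⟨x, h6, h7⟩ := mul_deg h5
        have e1 := hA.1 _ _ h6
        have e2 := hdL _ _ h7
        omega
    · rw [one_deg h4]

end one

section two
variable {F I : Type} [Field F] [Fintype I] [DecidableEq I]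

/-- an idempotent matrix splits -/
theorem exists_split (f : Matrix I I F) (hf : f * f = f) :
    ∃ (r : ℕ) (s : Matrix (Fin r) I F) (q : Matrix I (Fin r) F), s * q = 1 ∧ q * s = f := by
  let V := LinearMap.range (Matrix.vecMulLinear f)
  let b : Module.Basis (Fin (Module.finrank F V)) F V := Module.finBasis F V
  have hV : ∀ v : V, (v : I → F) ᵥ* f = v := by
    rintro ⟨v, w, hw⟩
    have h1 : w ᵥ* f = v := hw
    show v ᵥ* f = v
    rw [← h1, Matrix.vecMul_vecMul, hf]
  let T : (I → F) →ₗ[F] V := (Matrix.vecMulLinear f).rangeRestrict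
  have hT : ∀ v, ((T v : V) : I → F) = v ᵥ* f := fun _ => rfl
  have hTV : ∀ v : V, T (v : I → F) = v := fun v => Subtype.ext (hV v)
  refine ⟨Module.finrank F V, Matrix.of fun k i => ((b k : V) : I → F) i,
    Matrix.of fun i k => b.repr (T (Pi.single i 1)) k, ?_, ?_⟩
  · ext k l
    rw [Matrix.mul_apply]
    simp only [Matrix.of_apply]
    have h1 : T ((b k : V) : I → F) = ∑ i, ((b k : V) : I → F) i • T (Pi.single i 1) := by
      conv_lhs => rw [← Finset.univ_sum_single ((b k : V) : I → F)]
      rw [map_sum]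
      refine Finset.sum_congr rfl fun i _ => ?_
      rw [← map_smul, ← Pi.single_smul, smul_eq_mul, mul_one]
    have h2 : b.repr (T ((b k : V) : I → F)) l =
        ∑ i, ((b k : V) : I → F) i * b.repr (T (Pi.single i 1)) l := by
      rw [h1, map_sum, Finsupp.finsetSum_apply]
      refine Finset.sum_congr rfl fun i _ => ?_
      rw [map_smul, Finsupp.smul_apply, smul_eq_mul]
    rw [← h2, hTV, b.repr_self, Matrix.one_apply, Finsupp.single_apply]
  · ext i j
    rw [Matrix.mul_apply]
    simp only [Matrix.of_apply]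
    have h1 := b.sum_repr (T (Pi.single i 1))
    have h2 := congrFun (congrArg (Subtype.val : V → (I → F)) h1) j
    rw [hT, Matrix.single_one_vecMul] at h2
    refine Eq.trans ?_ h2
    rw [show (((∑ k, b.repr (T (Pi.single i 1)) k • b k : V)) : I → F) =
      ∑ k, b.repr (T (Pi.single i 1)) k • ((b k : V) : I → F) from by
        rw [Submodule.coe_sum]; rfl, Finset.sum_apply]
    rfl

/-- the data of a retraction on a graded space -/
structure Ret (deg : I → ℕ) (e : Matrix I I F) {J : Type} [Fintype J] [DecidableEq J]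
    (dJ : J → ℕ) (s : Matrix J I F) (q : Matrix I J F) : Prop where
  sq : s * q = 1
  qs : q * s = e
  ds : ∀ j i, s j i ≠ 0 → deg i = dJ j
  dq : ∀ i j, q i j ≠ 0 → deg i = dJ j

theorem Ret.card {deg : I → ℕ} {e : Matrix I I F} {J : Type} [Fintype J] [DecidableEq J]
    {dJ : J → ℕ} {s : Matrix J I F} {q : Matrix I J F} (h : Ret deg e dJ s q) (n : ℕ) :
    Module.finrank F (Ex deg e n) = (Finset.univ.filter fun j => dJ j = n).card := by
  let ext0 : ({j // dJ j = n} → F) →ₗ[F] (J → F) :=
    { toFun := fun w j => if h : dJ j = n then w ⟨j, h⟩ else 0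
      map_add' := by
        intro v w
        ext j
        by_cases h1 : dJ j = n
        · simp [h1]
        · simp [h1]
      map_smul' := by
        intro c w
        ext j
        by_cases h1 : dJ j = n
        · simp [h1]
        · simp [h1] }
  have hext : ∀ w (j : J) (hj : dJ j = n), ext0 w j = w ⟨j, hj⟩ := fun w j hj => dif_pos hj
  have hext' : ∀ w (j : J) (hj : dJ j ≠ n), ext0 w j = 0 := fun w j hj => dif_neg hj
  let E : Ex deg e n ≃ₗ[F] ({j // dJ j = n} → F) :=
    { toFun := fun v j => ((v : I → F) ᵥ* q) j.1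
      map_add' := by
        intro v w
        ext j
        show (((v : I → F) + (w : I → F)) ᵥ* q) j.1 = _
        rw [Matrix.add_vecMul]
        rfl
      map_smul' := by
        intro c v
        ext j
        show ((c • (v : I → F)) ᵥ* q) j.1 = _
        rw [Matrix.smul_vecMul]
        rfl
      invFun := fun w => ⟨ext0 w ᵥ* s, by
        rw [mem_Ex]
        constructor
        · exact vecMul_chains (deg := dJ) (fun a b hab ha => by rw [h.ds a b hab, ha])
            (fun j hj => hext' w j hj)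
        · rw [← h.qs, Matrix.vecMul_vecMul, ← Matrix.mul_assoc, h.sq, Matrix.one_mul]⟩
      left_inv := by
        rintro ⟨v, hv⟩
        rw [mem_Ex] at hv
        apply Subtype.ext
        show ext0 (fun j => (v ᵥ* q) j.1) ᵥ* s = v
        have h1 : ext0 (fun j => (v ᵥ* q) j.1) = v ᵥ* q := by
          ext j
          by_cases hj : dJ j = n
          · rw [hext _ j hj]
          · rw [hext' _ j hj]
            exact (vecMul_chains (dJ := dJ) (m := n)
              (fun a b hab ha => by rw [← h.dq a b hab, ha]) hv.1 j hj).symm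
        rw [h1, Matrix.vecMul_vecMul, h.qs, hv.2]
      right_inv := by
        intro w
        ext ⟨j, hj⟩
        show ((ext0 w ᵥ* s) ᵥ* q) j = w ⟨j, hj⟩
        rw [Matrix.vecMul_vecMul, h.sq, Matrix.vecMul_one, hext _ j hj] }
  rw [E.finrank_eq, Module.finrank_fintype_fun_eq_card, Fintype.card_subtype]

theorem exists_ret {deg : I → ℕ} {e : Matrix I I F} (he : e * e = e)
    (hd : ∀ a b, e a b ≠ 0 → deg a = deg b) :
    ∃ (J : Type) (_ : Fintype J) (_ : DecidableEq J) (dJ : J → ℕ) (s : Matrix J I F)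
      (q : Matrix I J F), Ret deg e dJ s q := by
  obtain ⟨N, hN⟩ : ∃ N, ∀ i, deg i < N := by
    refine ⟨(Finset.univ.sup deg) + 1, fun i => ?_⟩
    exact Nat.lt_succ_of_le (Finset.le_sup (f := deg) (Finset.mem_univ i))
  let f : Fin N → Matrix I I F := fun n => Matrix.of fun a b => if deg a = n then e a b else 0
  have hff : ∀ n m, f n * f m = if n = m then f n else 0 := by
    intro n m
    ext a b
    rw [Matrix.mul_apply]
    have h1 : ∀ c, f n a c * f m c b = if (deg a = n ∧ n = m) then e a c * e c b else 0 := by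
      intro c
      show (if deg a = n then e a c else 0) * (if deg c = m then e c b else 0) = _
      by_cases h2 : e a c = 0
      · simp [h2]
      · have h3 := hd a c h2
        by_cases h4 : deg a = n
        · by_cases h5 : n = m
          · rw [if_pos h4, if_pos (by rw [← h3, h4, h5]), if_pos ⟨h4, h5⟩]
          · rw [if_neg (c := deg c = m) (fun h6 => h5 (Fin.ext (by rw [← h4, ← h6, h3]))), mul_zero,
              if_neg (fun h6 => h5 h6.2)]
        · rw [if_neg h4, zero_mul, if_neg (fun h6 => h4 h6.1)]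
    rw [Finset.sum_congr rfl fun c _ => h1 c]
    by_cases h4 : deg a = n
    · by_cases h5 : n = m
      · simp only [if_pos (And.intro h4 h5), if_pos h5]
        rw [← Matrix.mul_apply, he]
        show _ = if deg a = n then e a b else 0
        rw [if_pos h4]
      · simp [h5]
    · have h6 : f n a b = 0 := by
        show (if deg a = n then e a b else 0) = 0
        rw [if_neg h4]
      by_cases h5 : n = m
      · simp [h5, h4, h6]
        rw [← h5]
        simp [h4, h6]
      · simp [h5]
  have hfd : ∀ n a b, f n a b ≠ 0 → deg a = n ∧ deg b = n := by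
    intro n a b h1
    have h2 : (if deg a = n then e a b else 0) ≠ 0 := h1
    by_cases h3 : deg a = n
    · rw [if_pos h3] at h2
      exact ⟨h3, by rw [← hd _ _ h2, h3]⟩
    · rw [if_neg h3] at h2
      exact absurd rfl h2
  have hfs : ∑ n, f n = e := by
    ext a b
    rw [Matrix.sum_apply]
    show ∑ n : Fin N, (if deg a = n then e a b else 0) = e a b
    rw [Finset.sum_eq_single ⟨deg a, hN a⟩]
    · simp
    · intro n _ hn
      rw [if_neg]
      intro h1
      exact hn (Fin.ext h1.symm)
    · intro h1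
      exact absurd (Finset.mem_univ _) h1
  choose r s q hsq hqs using fun n => exists_split (f n) (by rw [hff, if_pos rfl])
  have hsf : ∀ n, s n = s n * f n := by
    intro n
    rw [← hqs, ← Matrix.mul_assoc, hsq, Matrix.one_mul]
  have hqf : ∀ n, q n = f n * q n := by
    intro n
    rw [← hqs, Matrix.mul_assoc, hsq, Matrix.mul_one]
  refine ⟨Σ n : Fin N, Fin (r n), inferInstance, inferInstance, fun x => x.1,
    Matrix.of fun x i => s x.1 x.2 i, Matrix.of fun i x => q x.1 i x.2, ?_, ?_, ?_, ?_⟩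
  · ext ⟨n, k⟩ ⟨m, l⟩
    rw [Matrix.mul_apply]
    show ∑ i, s n k i * q m i l = _
    rw [← Matrix.mul_apply]
    by_cases hnm : n = m
    · subst hnm
      rw [hsq, Matrix.one_apply, Matrix.one_apply]
      simp
    · rw [hsf, hqf, Matrix.mul_assoc, ← Matrix.mul_assoc (f n) (f m), hff, if_neg hnm,
        Matrix.zero_mul, Matrix.mul_zero, Matrix.one_apply_ne (fun h => hnm (congrArg Sigma.fst h))]
      rfl
  · ext i j
    rw [Matrix.mul_apply, Fintype.sum_sigma]
    show ∑ n, ∑ k, q n i k * s n k j = _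
    rw [← hfs, Matrix.sum_apply]
    refine Finset.sum_congr rfl fun n _ => ?_
    rw [← hqs, Matrix.mul_apply]
  · rintro ⟨n, k⟩ i h1
    have h2 : s n k i ≠ 0 := h1
    rw [hsf] at h2
    obtain ⟨c, -, h3⟩ := mul_deg h2
    exact (hfd _ _ _ h3).2
  · rintro i ⟨n, k⟩ h1
    have h2 : q n i k ≠ 0 := h1
    rw [hqf] at h2
    obtain ⟨c, h3, -⟩ := mul_deg h2
    exact (hfd _ _ _ h3).1

end two

section three
variable {F I J : Type} [Field F] [Fintype I] [Fintype J] [DecidableEq I] [DecidableEq J]

/-- the sign matrix -/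
def sgn (F : Type) [Field F] {I : Type} [DecidableEq I] (dI : I → ℕ) : Matrix I I F :=
  Matrix.diagonal fun i => (-1) ^ dI i

theorem tens_eq (dI : I → ℕ) (A : Matrix I I F) (B : Matrix J J F) :
    tens dI A B = A ⊗ₖ (1 : Matrix J J F) + sgn F dI ⊗ₖ B := by
  ext ⟨a, a'⟩ ⟨b, b'⟩
  show (if a' = b' then A a b else 0) + (if a = b then (-1) ^ dI a * B a' b' else 0) =
    A a b * (1 : Matrix J J F) a' b' + sgn F dI a b * B a' b'
  unfold sgn
  rw [Matrix.one_apply, Matrix.diagonal_apply]
  congr 1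
  · split_ifs <;> simp
  · split_ifs <;> simp

theorem sgn_sq (dI : I → ℕ) : sgn F dI * sgn F dI = 1 := by
  unfold sgn
  rw [Matrix.diagonal_mul_diagonal, ← Matrix.diagonal_one]
  congr 1
  ext i
  rw [← pow_add, ← two_mul, pow_mul]
  simp

theorem sgn_anti (dI : I → ℕ) {M : Matrix I I F}
    (h : ∀ a b, M a b ≠ 0 → dI a = dI b + 1 ∨ dI b = dI a + 1) :
    M * sgn F dI = -(sgn F dI * M) := by
  unfold sgn
  ext a b
  rw [Matrix.mul_diagonal, Matrix.neg_apply, Matrix.diagonal_mul]
  by_cases h1 : M a b = 0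
  · rw [h1]
    simp
  · rcases h a b h1 with h2 | h2
    · rw [h2, pow_succ]
      ring
    · rw [h2, pow_succ]
      ring

theorem sgn_comm (dI : I → ℕ) {M : Matrix I I F} (h : ∀ a b, M a b ≠ 0 → dI a = dI b) :
    M * sgn F dI = sgn F dI * M := by
  unfold sgn
  ext a b
  rw [Matrix.mul_diagonal, Matrix.diagonal_mul]
  by_cases h1 : M a b = 0
  · rw [h1]
    simp
  · rw [h a b h1]
    ring

theorem kr_ne {M : Matrix I I F} {N : Matrix J J F} {p q : I × J} (h : (M ⊗ₖ N) p q ≠ 0) :
    M p.1 q.1 ≠ 0 ∧ N p.2 q.2 ≠ 0 := by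
  rw [Matrix.kroneckerMap_apply] at h
  exact ⟨left_ne_zero_of_mul h, right_ne_zero_of_mul h⟩

theorem sgn_deg {dI : I → ℕ} {a b : I} (h : sgn F dI a b ≠ 0) : a = b := by
  by_contra h1
  exact h (Matrix.diagonal_apply_ne _ h1)

theorem tens_cx {dI : I → ℕ} {dJ : J → ℕ} {A : Matrix I I F} {B : Matrix J J F}
    (hA : IsCx dI A) (hB : IsCx dJ B) : IsCx (degT dI dJ) (tens dI A B) := by
  have h1 : A * sgn F dI = -(sgn F dI * A) := sgn_anti dI fun a b h => Or.inl (hA.1 a b h)
  constructor
  · intro p q h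
    rw [tens_eq, Matrix.add_apply] at h
    show dI p.1 + dJ p.2 = dI q.1 + dJ q.2 + 1
    by_cases h2 : (A ⊗ₖ (1 : Matrix J J F)) p q = 0
    · rw [h2, zero_add] at h
      obtain ⟨h3, h4⟩ := kr_ne h
      rw [sgn_deg h3]
      have := hB.1 _ _ h4
      omega
    · obtain ⟨h3, h4⟩ := kr_ne h2
      rw [one_deg h4]
      have := hA.1 _ _ h3
      omega
  · rw [tens_eq]
    simp only [Matrix.add_mul, Matrix.mul_add, ← Matrix.mul_kronecker_mul, hA.2, hB.2, h1,
      Matrix.one_mul, Matrix.mul_one, Matrix.zero_kronecker, Matrix.kronecker_zero, zero_add,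
      add_zero, Matrix.neg_mul, Matrix.mul_neg]
    rw [← Matrix.add_kronecker]
    simp

theorem tens_hty {dI : I → ℕ} {dJ : J → ℕ} {A e K : Matrix I I F} {B e' K' : Matrix J J F}
    (hA : IsCx dI A) (h : Hty dI A e K) (h' : Hty dJ B e' K') :
    Hty (degT dI dJ) (tens dI A B) (e ⊗ₖ e')
      (K ⊗ₖ (1 : Matrix J J F) + (sgn F dI * e) ⊗ₖ K') := by
  have h1 : A * sgn F dI = -(sgn F dI * A) := sgn_anti dI fun a b h => Or.inl (hA.1 a b h)
  have h2 : K * sgn F dI = -(sgn F dI * K) := sgn_anti dI fun a b h3 => Or.inr (h.dK a b h3)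
  have h3 : e * sgn F dI = sgn F dI * e := sgn_comm dI h.de
  have h4 := sgn_sq (F := F) dI
  constructor
  · rw [tens_eq, Matrix.mul_add, ← Matrix.mul_kronecker_mul, ← Matrix.mul_kronecker_mul, h.eA, h'.eA,
      Matrix.zero_kronecker, Matrix.kronecker_zero, add_zero]
  · rw [tens_eq, Matrix.add_mul, ← Matrix.mul_kronecker_mul, ← Matrix.mul_kronecker_mul, h.Ae, h'.Ae,
      Matrix.zero_kronecker, Matrix.kronecker_zero, add_zero]
  · rw [← Matrix.mul_kronecker_mul, h.ee, h'.ee]
  · have e1 : A * (sgn F dI * e) = 0 := by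
      rw [← Matrix.mul_assoc, h1, Matrix.neg_mul, Matrix.mul_assoc, h.Ae, Matrix.mul_zero, neg_zero]
    have e2 : sgn F dI * (sgn F dI * e) = e := by
      rw [← Matrix.mul_assoc, h4, Matrix.one_mul]
    have e3 : sgn F dI * e * A = 0 := by
      rw [Matrix.mul_assoc, h.eA, Matrix.mul_zero]
    have e4 : sgn F dI * e * sgn F dI = e := by
      rw [Matrix.mul_assoc, h3, e2]
    rw [tens_eq]
    simp only [Matrix.add_mul, Matrix.mul_add, ← Matrix.mul_kronecker_mul, e1, e2, e3, e4, h2,
      Matrix.one_mul, Matrix.mul_one, Matrix.zero_kronecker, Matrix.kronecker_zero, zero_add,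
      add_zero]
    have e5 : A * K = 1 - e - K * A := by rw [← h.hom]; abel
    have e6 : B * K' = 1 - e' - K' * B := by rw [← h'.hom]; abel
    rw [e5, e6]
    ext p q
    simp only [Matrix.add_apply, Matrix.sub_apply, Matrix.neg_apply, Matrix.kroneckerMap_apply]
    have e7 : (1 : Matrix (I × J) (I × J) F) p q =
        (1 : Matrix I I F) p.1 q.1 * (1 : Matrix J J F) p.2 q.2 := by
      rw [← Matrix.one_kronecker_one]
      rfl
    rw [e7]
    ring
  · intro p q h5
    rw [Matrix.add_apply] at h5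
    show dI q.1 + dJ q.2 = dI p.1 + dJ p.2 + 1
    by_cases h6 : (K ⊗ₖ (1 : Matrix J J F)) p q = 0
    · rw [h6, zero_add] at h5
      obtain ⟨h7, h8⟩ := kr_ne h5
      obtain ⟨c, h9, h10⟩ := mul_deg h7
      have e1 := sgn_deg h9
      have e2 := h.de _ _ h10
      rw [← e1] at e2
      have := h'.dK _ _ h8
      omega
    · obtain ⟨h7, h8⟩ := kr_ne h6
      rw [one_deg h8]
      have := h.dK _ _ h7
      omega
  · intro p q h5
    obtain ⟨h7, h8⟩ := kr_ne h5
    show dI p.1 + dJ p.2 = dI q.1 + dJ q.2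
    rw [h.de _ _ h7, h'.de _ _ h8]

theorem tens_ret {dI : I → ℕ} {dJ : J → ℕ} {e : Matrix I I F} {e' : Matrix J J F}
    {L : Type} [Fintype L] [DecidableEq L] {dL : L → ℕ} {s : Matrix L I F} {q : Matrix I L F}
    {L' : Type} [Fintype L'] [DecidableEq L'] {dL' : L' → ℕ} {s' : Matrix L' J F}
    {q' : Matrix J L' F} (h : Ret dI e dL s q) (h' : Ret dJ e' dL' s' q') :
    Ret (degT dI dJ) (e ⊗ₖ e') (degT dL dL') (s ⊗ₖ s') (q ⊗ₖ q') := by
  constructor
  · rw [← Matrix.mul_kronecker_mul, h.sq, h'.sq, Matrix.one_kronecker_one]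
  · rw [← Matrix.mul_kronecker_mul, h.qs, h'.qs]
  · intro p q hpq
    rw [Matrix.kroneckerMap_apply] at hpq
    show dI q.1 + dJ q.2 = dL p.1 + dL' p.2
    rw [h.ds _ _ (left_ne_zero_of_mul hpq), h'.ds _ _ (right_ne_zero_of_mul hpq)]
  · intro p q hpq
    rw [Matrix.kroneckerMap_apply] at hpq
    show dI p.1 + dJ p.2 = dL q.1 + dL' q.2
    rw [h.dq _ _ (left_ne_zero_of_mul hpq), h'.dq _ _ (right_ne_zero_of_mul hpq)]

end three

theorem card_pairs {L L' : Type} [Fintype L] [Fintype L'] (dL : L → ℕ) (dL' : L' → ℕ) (n : ℕ) :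
    (Finset.univ.filter fun p : L × L' => degT dL dL' p = n).card =
      ∑ i ∈ Finset.range (n + 1), (Finset.univ.filter fun j => dL j = i).card *
        (Finset.univ.filter fun j => dL' j = n - i).card := by
  classical
  rw [Finset.card_eq_sum_card_fiberwise (f := fun p : L × L' => dL p.1)
    (t := Finset.range (n + 1))]
  · refine Finset.sum_congr rfl fun i hi => ?_
    rw [← Finset.card_product]
    congr 1
    ext ⟨a, b⟩
    rw [Finset.mem_range] at hi
    simp only [Finset.mem_filter, Finset.mem_univ, true_and, Finset.mem_product]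
    show (dL a + dL' b = n ∧ dL a = i) ↔ (dL a = i ∧ dL' b = n - i)
    constructor
    · rintro ⟨h1, h2⟩
      exact ⟨h2, by omega⟩
    · rintro ⟨h1, h2⟩
      exact ⟨by omega, h1⟩
  · intro p hp
    rw [Finset.mem_coe, Finset.mem_filter] at hp
    rw [Finset.mem_coe, Finset.mem_range]
    have h1 : dL p.1 + dL' p.2 = n := hp.2
    show dL p.1 < n + 1
    omega

theorem t : KunStmt := by
  intro F I J _ _ _ _ _ dI dJ A B hA hB n
  obtain ⟨e, K, h⟩ := exists_hty hA
  obtain ⟨e', K', h'⟩ := exists_hty hB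
  obtain ⟨L, _, _, dL, s, q, hr⟩ := exists_ret h.ee h.de
  obtain ⟨L', _, _, dL', s', q', hr'⟩ := exists_ret h'.ee h'.de
  rw [betti_eq (tens_cx hA hB) (tens_hty hA h h') n, (tens_ret hr hr').card, card_pairs]
  refine Finset.sum_congr rfl fun i _ => ?_
  rw [betti_eq hA h, betti_eq hB h', hr.card, hr'.card]

end Pool.Agent.Y655.KUN
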