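import Pool.Agent.Y560.TG.Stm

/-!
# Project TG (helper560): gluing back-and-forth systems and isomorphisms along invariant classes
-/

set_option autoImplicit false

namespace Pool.Agent.Y655.TG

open Set
open Pool.Agent.H899R2.VP (St Adj PIso BF IsoOn BF_iff)
open Pool.Agent.H533R2.VO (lift)
open Pool.Agent.H566P (R2 lt ac co)
open Pool.Agent.Y560.TG

/-- The union of the parts is a partial isomorphism. -/
theorem glue {ι : Type} {π : ℕ → ι} {R V : R2} {M M' : ι → R2}
    (h1 : ∀ x y, π x ≠ π y → (lt V x y ↔ lt R x y))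
    (h2 : ∀ n x y, ac R n x y → π x = π y) (h3 : ∀ n x y, ac V n x y → π x = π y)
    (h4 : ∀ c q, (∀ u ∈ q, π u.1 = c ∧ π u.2 = c) → PIso (lift (M c)) (lift (M' c)) q →
      PIso (lift R) (lift V) q ∧ ∀ u ∈ q, ∀ w, π w ≠ c →
        (lt R u.1 w ↔ lt R u.2 w) ∧ (lt R w u.1 ↔ lt R w u.2))
    {q : Set (ℕ × ℕ)} (hq : ∀ u ∈ q, π u.1 = π u.2)
    (h : ∀ c, PIso (lift (M c)) (lift (M' c)) {u | u ∈ q ∧ π u.1 = c}) :
    PIso (lift R) (lift V) q := by
  have h5 := fun c => h4 c {u | u ∈ q ∧ π u.1 = c}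
    (fun u hu => ⟨hu.2, by rw [← hq u hu.1]; exact hu.2⟩) (h c)
  have h6 := fun c => piso_iff.1 (h5 c).1
  rw [piso_iff]
  refine ⟨fun u hu v hv => ?_, fun u hu v hv => ?_, fun n u hu v hv => ?_, fun n u hu => ?_⟩
  · by_cases hc : π u.1 = π v.1
    · exact (h6 (π v.1)).1 u ⟨hu, hc⟩ v ⟨hv, rfl⟩
    · constructor
      · intro e
        exact absurd (by rw [e]) hc
      · intro e
        exact absurd (by rw [hq u hu, hq v hv, e]) hc
  · by_cases hc : π u.1 = π v.1
    · exact (h6 (π v.1)).2.1 u ⟨hu, hc⟩ v ⟨hv, rfl⟩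
    · have e1 := ((h5 (π u.1)).2 u ⟨hu, rfl⟩ v.1 (fun e => hc e.symm)).1
      have e2 := ((h5 (π v.1)).2 v ⟨hv, rfl⟩ u.2 (by rw [← hq u hu]; exact hc)).2
      have e3 := h1 u.2 v.2 (by rw [← hq u hu, ← hq v hv]; exact hc)
      exact e1.trans (e2.trans e3.symm)
  · by_cases hc : π u.1 = π v.1
    · exact (h6 (π v.1)).2.2.1 n u ⟨hu, hc⟩ v ⟨hv, rfl⟩
    · constructor
      · intro e
        exact absurd (h2 n _ _ e) hc
      · intro e
        exact absurd (by rw [hq u hu, hq v hv]; exact h3 n _ _ e) hc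
  · exact (h6 (π u.1)).2.2.2 n u ⟨hu, rfl⟩

theorem t_GL : S_GL := by
  intro ι π R V M M' h1 h2 h3 h4
  constructor
  · intro o
    induction o using WellFoundedLT.induction with
    | ind o ih =>
      intro q hq h
      rw [BF_iff]
      have hins : ∀ x y : ℕ, ∀ c, π x = c →
          {u | u ∈ insert (x, y) q ∧ π u.1 = c} = insert (x, y) {u | u ∈ q ∧ π u.1 = c} := by
        intro x y c hc
        ext u
        constructor
        · rintro ⟨hu | hu, hu'⟩
          · exact Or.inl hu
          · exact Or.inr ⟨hu, hu'⟩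
        · rintro (hu | hu)
          · refine ⟨Or.inl hu, ?_⟩
            rw [hu]
            exact hc
          · exact ⟨Or.inr hu.1, hu.2⟩
      have hout : ∀ x y : ℕ, ∀ c, π x ≠ c →
          {u | u ∈ insert (x, y) q ∧ π u.1 = c} = {u | u ∈ q ∧ π u.1 = c} := by
        intro x y c hc
        ext u
        constructor
        · rintro ⟨hu | hu, hu'⟩
          · exfalso
            rw [hu] at hu'
            exact hc hu'
          · exact ⟨hu, hu'⟩
        · exact fun hu => ⟨Or.inr hu.1, hu.2⟩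
      have step : ∀ o' < o, ∀ x y : ℕ, π x = π y →
          BF (lift (M (π x))) (lift (M' (π x))) {v | π v = π x} {v | π v = π x} o'
            (insert (x, y) {u | u ∈ q ∧ π u.1 = π x}) →
          BF (lift R) (lift V) univ univ o' (insert (x, y) q) := by
        intro o' ho' x y hxy hb
        refine ih o' ho' _ ?_ ?_
        · rintro u (hu | hu)
          · rw [hu]
            exact hxy
          · exact hq u hu
        · intro c
          by_cases hc : π x = c
          · rw [hins x y c hc, ← hc]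
            exact hb
          · rw [hout x y c hc]
            exact (h c).mono ho'.le
      refine ⟨glue h1 h2 h3 h4 hq fun c => (h c).piso, fun o' ho' =>
        ⟨fun x _ => ?_, fun y _ => ?_⟩⟩
      · obtain ⟨y, hy, hb⟩ := (h (π x)).forth ho' (x := x) rfl
        exact ⟨y, mem_univ _, step o' ho' x y (Eq.symm hy) hb⟩
      · obtain ⟨x, hx, hb⟩ := (h (π y)).back ho' (y := y) rfl
        have hx' : π x = π y := hx
        refine ⟨x, mem_univ _, step o' ho' x y hx' ?_⟩
        rw [hx']
        exact hb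
  · intro q hq h
    choose r hr1 hr2 hr3 hr4 hr5 using h
    refine ⟨{u | ∃ c, u ∈ r c}, fun u hu => ⟨π u.1, hr1 _ ⟨hu, rfl⟩⟩,
      fun u _ => ⟨mem_univ _, mem_univ _⟩, ?_, ?_, ?_⟩
    · refine glue h1 h2 h3 h4 ?_ ?_
      · rintro u ⟨c, hu⟩
        have h5 : π u.1 = c := (hr2 c hu).1
        have h6 : π u.2 = c := (hr2 c hu).2
        rw [h5, h6]
      · intro c
        refine (hr3 c).mono ?_
        rintro u ⟨⟨d, hu⟩, hu'⟩
        have h5 : π u.1 = d := (hr2 d hu).1
        have e : d = c := by rw [← hu', h5]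
        rw [← e]
        exact hu
    · intro x _
      obtain ⟨y, hy⟩ := hr4 (π x) x rfl
      exact ⟨y, π x, hy⟩
    · intro y _
      obtain ⟨x, hx⟩ := hr5 (π y) y rfl
      exact ⟨x, π y, hx⟩

end Pool.Agent.Y655.TG
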