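import Pool.Agent.Y560.TG.Stm

/-!
# Project TG (helper560): fewness passes to structures with names
-/

set_option autoImplicit false

namespace Pool.Agent.Y655.TG

open Set MeasureTheory
open Pool.Agent.H899R2.VP (St Adj PIso BF IsoOn idOn inv comp)
open Pool.Agent.H533R2.VO (RS lift RIso)
open Pool.Agent.H566P (ar R2 lt ac co MB)
open Pool.Agent.Y560.TG

theorem t_NFEW (hL : S_PL) (hP : S_BP) (hT : S_TRQ) : S_NFEW := by
  intro Γ _ g hg R O y β Bad hMB hinv hy hω hβ hfew hBad hmain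
  rintro ⟨c, hc, hbf, hinj⟩
  obtain ⟨pl, hplm, hpl⟩ := hL Γ g hg R O hMB hinv
  have hT6 := hT.2.2.2.2.2.1
  have hT7 := hT.2.2.2.2.2.2
  have hpl' := fun A => hpl (c A) ((hbf A).mono hω)
  obtain ⟨V, hV⟩ : ∃ V : (ℕ → Bool) → R2, V = fun A => pl (c A) := ⟨_, rfl⟩
  have hiso : ∀ A, IsoOn (lift (Nm O (V A))) (lift (c A)) univ univ ∅ := by
    intro A
    rw [hV]
    exact riso_isoOn.1 (hpl' A).1
  have hoff : ∀ A, Off O R (V A) := by
    intro A
    rw [hV]
    exact (hpl' A).2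
  have hbfV : ∀ A, BF (lift R) (lift (V A)) univ univ β (idOn Oᶜ) := fun A =>
    (hT6 R (V A) O β hω).1 (bf_trans0 (hbf A) ((iso_symm0 (hiso A)).bf β))
  have hdist : ∀ A A', IsoOn (lift (V A)) (lift (V A')) univ univ (idOn Oᶜ) → A = A' :=
    fun A A' h => hinj A A' (riso_isoOn.2 (iso_trans0 (iso_trans0 (iso_symm0 (hiso A))
      (riso_isoOn.1 ((hT7 _ _ _).2 h))) (hiso A')))
  have hcnt : {A | V A ∈ Bad}.Countable := by
    obtain ⟨f, hf⟩ := hBad
    have h' : ∀ A : {A | V A ∈ Bad}, ∃ n, IsoOn (lift (f n)) (lift (V A)) univ univ (idOn Oᶜ) :=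
      fun A => hf _ A.2
    choose n hn using h'
    have hinj' : Function.Injective n := by
      intro A A' h
      apply Subtype.ext
      apply hdist
      have h1 := hn A
      have h2 := hn A'
      rw [← h] at h2
      refine (h1.symm.trans h2).mono ?_
      rintro ⟨u, v⟩ ⟨h4, h5⟩
      simp only at h4 h5
      subst h4
      exact ⟨u, ⟨rfl, h5⟩, ⟨rfl, h5⟩⟩
    exact Set.countable_coe_iff.1 hinj'.countable
  have hmeas : MeasurableSet ({A | V A ∈ Bad}ᶜ : Set (ℕ → Bool)) := hcnt.measurableSet.compl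
  have hsb : StandardBorelSpace ({A | V A ∈ Bad}ᶜ : Set (ℕ → Bool)) := hmeas.standardBorel
  have hunc : ¬ Countable ({A | V A ∈ Bad}ᶜ : Set (ℕ → Bool)) := by
    intro h
    apply Pool.Agent.H899R2.VP.not_countable_cantor
    have h1 : ({A | V A ∈ Bad}ᶜ : Set (ℕ → Bool)).Countable := Set.countable_coe_iff.1 h
    have h2 := hcnt.union h1
    rw [Set.union_compl_self] at h2
    exact Set.countable_univ_iff.1 h2
  refine hP {W | BF (lift R) (lift W) univ univ β ∅} ?_ hfew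
    ({A | V A ∈ Bad}ᶜ : Set (ℕ → Bool)) hunc (fun ω => V ω.1) (fun _ => y) ?_ measurable_const
    (fun ω => (hbfV ω.1).subset (empty_subset _)) ?_
  · have hlift : Measurable (lift : R2 → St ar) := measurable_const.prodMk measurable_id
    exact msg ar (lift R) univ R2 lift (fun _ => univ) hlift (fun z => by simp) β hβ ∅
  · have h1 : Measurable V := by
      rw [hV]
      exact hplm.comp hc.measurable
    exact h1.comp measurable_subtype_coe
  · intro ω ω' h
    apply Subtype.ext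
    apply hdist
    exact hmain _ _ ω.2 (hoff _) (hoff _) (hbfV _) (hbfV _) h

open Classical in
theorem t_K1 (hN : S_NFEW) (hO : S_OFF) (hI : S_FILI) (hT : S_TRQ) (hG : S_GEO) : S_K1 := by
  intro Γ _ g hg R y z β hMB hyz hω hβ hfew
  obtain ⟨G1, G2, G3, G4, G5, G6, G7, G8, G9, -⟩ := hG Γ g hg R hMB
  obtain ⟨E, hE⟩ : ∃ E, E = Ob R y z := ⟨_, rfl⟩
  rw [← hE]
  have hyE : y ∉ E := by
    rw [hE]
    exact fun h => hyz ((G9 y z).1.1 h)
  have hzE : z ∈ E := by rw [hE]; exact G1 y z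
  have hinv : ∀ n x z, ac R n x z → (x ∈ E ↔ z ∈ E) := by
    intro n x w h
    rw [hE]
    exact G3 n y z x w h
  have hMod : Mod E (Q R y) R := by rw [hE]; exact G6 y z hyz
  refine hN Γ g hg R E y β {V | Off E R V ∧ BF (lift R) (lift V) univ univ β (idOn Eᶜ) ∧
    ∃ m, m ∉ E ∧ IsoOn (lift (ex (Q R y) V)) (lift (lb R y)) E (Ob R y m) ∅} hMB hinv hyE hω hβ
    hfew ?_ ?_
  · refine ⟨fun m => if h : ∃ V, Off E R V ∧
      IsoOn (lift (ex (Q R y) V)) (lift (lb R y)) E (Ob R y m) ∅ then h.choose else R, ?_⟩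
    rintro V ⟨hV1, -, m, hm, hV2⟩
    have hex : ∃ V, Off E R V ∧
      IsoOn (lift (ex (Q R y) V)) (lift (lb R y)) E (Ob R y m) ∅ := ⟨V, hV1, hV2⟩
    refine ⟨m, ?_⟩
    simp only
    rw [dif_pos hex]
    exact hI R _ V E (Q R y) hMod hex.choose_spec.1 hV1
      (iso_trans0 hex.choose_spec.2 (iso_symm0 hV2))
  · intro V V' hbad hoff hoff' hbf hbf' hiso
    obtain ⟨q1, q2⟩ := hO Γ g hg R V E hMB hinv hoff
    obtain ⟨q1', q2'⟩ := hO Γ g hg R V' E hMB hinv hoff'
    obtain ⟨-, -, qa, -, -⟩ := q2 (hbf.mono hω)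
    obtain ⟨-, -, qa', qb', -⟩ := q2' (hbf'.mono hω)
    have hQ : Q V y = Q R y := by
      funext m v
      exact propext (q1 y v m hyE)
    have hQ' : Q V' y = Q R y := by
      funext m v
      exact propext (q1' y v m hyE)
    have hOb : Ob V y z = E := qa y z hyz hE z hzE
    obtain ⟨q, hq1, hq2, hq3, hq4, hq5⟩ := hiso
    obtain ⟨w, hw⟩ := hq4 z (mem_univ _)
    have hyy : (y, y) ∈ q := hq1 rfl
    have h4 := (hT.2.2.2.1 V V' q y y z w ⟨q, Subset.rfl, hq2, hq3, hq4, hq5⟩ hyy hw).mono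
      (empty_subset _)
    have hlb : lb V y = ex (Q R y) V := by
      unfold lb
      rw [hQ]
    have hlb' : lb V' y = ex (Q R y) V' := by
      unfold lb
      rw [hQ']
    rw [hOb, hlb, hlb'] at h4
    by_cases hwE : w ∈ E
    · have h5 : Ob V' y w = E := qa' y z hyz hE w hwE
      rw [h5] at h4
      exact hI R V V' E (Q R y) hMod hoff hoff' h4
    · exfalso
      have hdis : ∀ x, x ∈ Ob R y w → x ∉ E := by
        intro x hx hxE
        apply hwE
        rw [hE] at hxE ⊢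
        rw [← G2 y z x hxE, G2 y w x hx]
        exact G1 y w
      have h5 : Ob V' y w = Ob R y w :=
        qb' y w hyE hwE (Set.disjoint_left.2 fun x hx => hdis x hx)
      rw [h5] at h4
      apply hbad
      refine ⟨hoff, hbf, w, hwE, iso_trans0 h4 ?_⟩
      refine ⟨idOn (Ob R y w), empty_subset _, ?_, ?_, fun x hx => ⟨x, rfl, hx⟩,
        fun x hx => ⟨x, rfl, hx⟩⟩
      · rintro ⟨u, v⟩ ⟨h6, h7⟩
        simp only at h6 h7
        subst h6
        exact ⟨h7, h7⟩
      · unfold lb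
        rw [piso_ex]
        refine ⟨piso_iff.2 ⟨?_, ?_, ?_, ?_⟩, ?_⟩
        · rintro ⟨u, u'⟩ ⟨h6, _⟩ ⟨v, v'⟩ ⟨h7, _⟩
          simp only at h6 h7
          subst h6 h7
          exact Iff.rfl
        · rintro ⟨u, u'⟩ ⟨h6, h8⟩ ⟨v, v'⟩ ⟨h7, _⟩
          simp only at h6 h7 h8
          subst h6 h7
          exact hoff'.1 u v (fun h => hdis u h8 h.1)
        · rintro n ⟨u, u'⟩ ⟨h6, h8⟩ ⟨v, v'⟩ ⟨h7, _⟩
          simp only at h6 h7 h8
          subst h6 h7
          exact hoff'.2.1 n u v (fun h => hdis u h8 h.1)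
        · rintro n ⟨u, u'⟩ ⟨h6, h8⟩
          simp only at h6 h8
          subst h6
          exact hoff'.2.2 n u (hdis u h8)
        · rintro k ⟨u, u'⟩ ⟨h6, _⟩
          simp only at h6
          subst h6
          exact Iff.rfl

end Pool.Agent.Y655.TG
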